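import Pool.Agent.H74.TQ.Stmts

set_option autoImplicit false

namespace Pool.TQ

open TMLib Polynomial

private theorem shift_xorl : ∀ (x y : List Bool), x.length = y.length → xorl x (xorl x y) = y := by
  intro x
  induction x with
  | nil =>
    intro y hy
    have : y = [] := List.length_eq_zero_iff.1 hy.symm
    subst this
    rfl
  | cons a x ih =>
    intro y hy
    cases y with
    | nil => simp at hy
    | cons b y =>
      have h1 := ih y (by simpa using hy)
      have h2 : xorl (a :: x) (b :: y) = xor a b :: xorl x y := rfl
      have h3 : xorl (a :: x) (xor a b :: xorl x y) = xor a (xor a b) :: xorl x (xorl x y) := rfl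
      rw [h2, h3, h1]
      cases a <;> cases b <;> rfl

/-- a common shift moves given strings out of a small set -/
theorem shift : S_SHIFT := by
  intro l Bad xs hBad hxs hcard
  classical
  let B : Finset (List Bool) := xs.toFinset.biUnion fun x => (bits l).filter fun y => xorl x y ∈ Bad
  have h1 : B.card < (bits l).card := by
    rw [card_bits]
    refine lt_of_le_of_lt ?_ hcard
    refine (Finset.card_biUnion_le_card_mul _ _ Bad.card ?_).trans
      (Nat.mul_le_mul_right _ (List.toFinset_card_le xs))
    intro x hx
    have hxl := hxs x (List.mem_toFinset.1 hx)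
    apply Finset.card_le_card_of_injOn (fun y => xorl x y)
    · intro y hy
      exact (Finset.mem_filter.1 hy).2
    · intro y hy y' hy' h
      have hy1 := (mem_bits l y).1 (Finset.mem_filter.1 hy).1
      have hy2 := (mem_bits l y').1 (Finset.mem_filter.1 hy').1
      have e1 := shift_xorl x y (by omega)
      have e2 := shift_xorl x y' (by omega)
      rw [← e1, ← e2]
      exact congrArg (xorl x) h
  obtain ⟨y, hy, hyB⟩ := Finset.exists_mem_notMem_of_card_lt_card h1
  refine ⟨y, (mem_bits l y).1 hy, ?_⟩
  intro x hx hbad
  apply hyB
  rw [Finset.mem_biUnion]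
  exact ⟨x, List.mem_toFinset.2 hx, Finset.mem_filter.2 ⟨hy, hbad⟩⟩

end Pool.TQ
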